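import Pool.Agent.Helper88.BN.FourL

/-!
# Project BN, block B3b: the case `n = 4`, the theorem
-/

namespace Pool.Agent.Helper88.BN

open Pool.Agent.Helper38.BN

/-- two cocycles have a combination which is constant on the kernel -/
def Dep (f : A 1 →* S4) : Prop :=
  ∀ c c' : A 1 → V4, IsCoc f c → IsCoc f c' → ∃ α β : ℤ, (α ≠ 0 ∨ β ≠ 0) ∧
    ∀ x, f x = 1 → ∀ i j, α * c x i + β * c' x i = α * c x j + β * c' x j

/-- the conjugate homomorphism -/
def cjH (g : S4) (f : A 1 →* S4) : A 1 →* S4 := (MulAut.conj g).toMonoidHom.comp f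

lemma cjH_apply (g : S4) (f : A 1 →* S4) (x : A 1) : cjH g f x = g * f x * g⁻¹ := rfl

lemma cjH_surj (g : S4) {f : A 1 →* S4} (hf : Function.Surjective f) :
    Function.Surjective (cjH g f) := by
  intro y
  obtain ⟨x, hx⟩ := hf (g⁻¹ * y * g)
  refine ⟨x, ?_⟩
  rw [cjH_apply, hx]
  group

lemma IsCoc.cj {f : A 1 →* S4} {c : A 1 → V4} (hc : IsCoc f c) (g : S4) :
    IsCoc (cjH g f) (fun x i => c x (g⁻¹ i)) := by
  intro x y i
  simp only [hc x y, cjH_apply, mul_inv_rev, inv_inv, Equiv.Perm.mul_apply]
  have h : ∀ z : Fin (1 + 3), g⁻¹ (g z) = z := fun z => g.symm_apply_apply z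
  rw [h]

lemma Dep.of_cj {f : A 1 →* S4} (g : S4) (h : Dep (cjH g f)) : Dep f := by
  intro c c' hc hc'
  obtain ⟨α, β, h1, h2⟩ := h _ _ (hc.cj g) (hc'.cj g)
  refine ⟨α, β, h1, fun x hx i j => ?_⟩
  have h3 := h2 x (by rw [cjH_apply, hx]; group) (g i) (g j)
  simpa using h3

lemma dep_of_const {f : A 1 →* S4}
    (h : ∀ c, IsCoc f c → ∀ x, f x = 1 → ∀ i j, c x i = c x j) : Dep f := by
  intro c c' hc hc'
  refine ⟨1, 0, Or.inl one_ne_zero, fun x hx i j => ?_⟩
  rw [h c hc x hx i j]
  simp

/-- the linear form -/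
def dl (c : A 1 → V4) : ℤ := c (aA 0) 0 + c (aA 0) 1 - c (aA 0) 2 - c (aA 0) 3

lemma dep_of_dl {f : A 1 →* S4}
    (h : ∀ c, IsCoc f c → dl c = 0 → ∀ x, f x = 1 → ∀ i j, c x i = c x j) : Dep f := by
  intro c c' hc hc'
  by_cases h1 : dl c = 0
  · refine ⟨1, 0, Or.inl one_ne_zero, fun x hx i j => ?_⟩
    rw [h c hc h1 x hx i j]
    simp
  · refine ⟨dl c', -dl c, Or.inr (by omega), fun x hx i j => ?_⟩
    have h2 := h _ (hc.smul_add hc' (dl c') (-dl c)) (by unfold dl; ring) x hx i j
    exact h2

/-- a subgroup with the images of the generators -/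
lemma top_of {f : A 1 →* S4} (hf : Function.Surjective f) (H : Subgroup S4)
    (h0 : f (aA 0) ∈ H) (h1 : f (aA 1) ∈ H) (h2 : f (aA 2) ∈ H) (hb : f bA ∈ H)
    (hd : f dA ∈ H) (y : S4) : y ∈ H := by
  obtain ⟨x, rfl⟩ := hf y
  have hx : x ∈ Subgroup.closure ({bA, dA} ∪ aA '' {j | j < 1 + 2} : Set (A 1)) := by
    rw [closure_A]; trivial
  have hle : Subgroup.closure ({bA, dA} ∪ aA '' {j | j < 1 + 2} : Set (A 1)) ≤ H.comap f := by
    rw [Subgroup.closure_le]
    rintro z ((rfl | rfl) | ⟨j, hj, rfl⟩)
    · exact hb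
    · exact hd
    · have hj' : j < 1 + 2 := hj
      have : j = 0 ∨ j = 1 ∨ j = 2 := by omega
      rcases this with rfl | rfl | rfl
      · exact h0
      · exact h1
      · exact h2
  exact hle hx

lemma center4 : ∀ s : S4, (∀ g : S4, g * s = s * g) → s = 1 := by decide +kernel

private lemma com_of {f : A 1 →* S4} {x y : A 1} (h : x * y = y * x) : f x * f y = f y * f x := by
  rw [← map_mul, h, map_mul]

private lemma brd_of {f : A 1 →* S4} {x y : A 1} (h : x * y * x = y * x * y) :
    f x * f y * f x = f y * f x * f y := by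
  rw [← map_mul, ← map_mul, h, map_mul, map_mul]

private lemma eq_of_cb {G : Type*} [Group G] {u s : G} (h : u * s = s * u)
    (h1 : u * s * u = s * u * s) : u = s := by
  have h2 : s * u * u = s * u * s := by rw [← h1, h]
  exact mul_left_cancel h2

lemma not_eq {f : A 1 →* S4} (hf : Function.Surjective f) : f (aA 0) ≠ f (aA 1) := by
  intro h
  have r := relA 1
  have c02 := com_of (f := f) (r.comm 0 2 (by omega) (by omega))
  have b12 := brd_of (f := f) (r.braid 1 (by omega))
  have cb0 := com_of (f := f) (r.bc 0 (by omega))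
  have bb1 := brd_of (f := f) r.bb
  have c1d := com_of (f := f) (r.dcomm 1 (by omega) (by omega))
  have e2 : f (aA 2) = f (aA 1) := by
    rw [h] at c02
    exact eq_of_cb c02.symm b12.symm
  have eb : f bA = f (aA 1) := by
    rw [h] at cb0
    exact eq_of_cb cb0 bb1
  have hs : f (aA 1) = 1 := by
    apply center4
    intro g
    have := top_of hf (Subgroup.centralizer {f (aA 1)}) (by rw [h]; simp [Subgroup.mem_centralizer_iff])
      (by simp [Subgroup.mem_centralizer_iff]) (by rw [e2]; simp [Subgroup.mem_centralizer_iff])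
      (by rw [eb]; simp [Subgroup.mem_centralizer_iff])
      (by simpa [Subgroup.mem_centralizer_iff] using c1d) g
    simpa [Subgroup.mem_centralizer_iff, eq_comm] using this
  have hd : f dA = 1 := by
    apply center4
    intro g
    have := top_of hf (Subgroup.centralizer {f dA}) (by rw [h, hs]; simp)
      (by rw [hs]; simp)
      (by rw [e2, hs]; simp)
      (by rw [eb, hs]; simp)
      (by simp [Subgroup.mem_centralizer_iff]) g
    simpa [Subgroup.mem_centralizer_iff, eq_comm] using this
  have := top_of hf ⊥ (by rw [h, hs]; simp) (by rw [hs]; simp) (by rw [e2, hs]; simp)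
    (by rw [eb, hs]; simp) (by rw [hd]; simp) s01
  rw [Subgroup.mem_bot] at this
  exact absurd this (by decide)

/-- the classification of the surjections to the symmetric group of degree four -/
theorem key (f : A 1 →* S4) (hf : Function.Surjective f) :
    (∃ g : S4, ∀ x, f x = g * piF 1 x * g⁻¹) ∨ Dep f := by
  have r := relA 1
  have b01 := brd_of (f := f) (r.braid 0 (by omega))
  rcases pairs _ _ (not_eq hf) b01 with ⟨g, h0, h1⟩ | ⟨g, h0, h1⟩ | ⟨h0, h1⟩
  · -- transpositions
    have hf' := cjH_surj g hf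
    set f' := cjH g f with hf'def
    have e0 : f' (aA 0) = s01 := h0
    have e1 : f' (aA 1) = s12 := h1
    have c02 := com_of (f := f') (r.comm 0 2 (by omega) (by omega))
    have b12 := brd_of (f := f') (r.braid 1 (by omega))
    have cb0 := com_of (f := f') (r.bc 0 (by omega))
    have bb1 := brd_of (f := f') r.bb
    have c1d := com_of (f := f') (r.dcomm 1 (by omega) (by omega))
    have c2d := com_of (f := f') (r.dcomm 2 (by omega) (by omega))
    have cbd := com_of (f := f') r.bd
    have h4 : f' dA * f' (aA 0) * f' dA * f' (aA 0) = f' (aA 0) * f' dA * f' (aA 0) * f' dA := by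
      simp only [← map_mul]
      rw [r.four (by omega)]
    rw [e0] at c02 cb0 h4
    rw [e1] at b12 bb1 c1d
    have hu := uT _ c02.symm b12.symm
    have hv := uT _ cb0 bb1
    rcases hu with hu | hu
    · have hd : f' dA = 1 := by
        rw [hu] at c2d
        exact dT' _ c1d.symm c2d.symm
      rcases hv with hv | hv
      · exfalso
        have := top_of hf' (MulAction.stabilizer S4 (3 : Fin (1 + 3)))
          (by rw [e0]; rfl) (by rw [e1]; rfl) (by rw [hu]; rfl) (by rw [hv]; rfl)
          (by rw [hd]; rfl) s23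
        have h5 : s23 3 = 3 := this
        exact absurd h5 (by decide)
      · right
        apply Dep.of_cj g
        apply dep_of_dl
        intro c hc hδ x hx i j
        exact lin_TI hc e0 e1 hu hv hd (by unfold dl at hδ; omega) hx i j
    · rcases hv with hv | hv
      · have hd : f' dA = 1 := by
          rw [hv] at cbd
          exact dT' _ c1d.symm cbd.symm
        right
        apply Dep.of_cj g
        apply dep_of_dl
        intro c hc hδ x hx i j
        exact lin_TJ hc e0 e1 hu hv hd (by unfold dl at hδ; omega) hx i j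
      · have hd : f' dA = 1 := by
          rw [hv] at cbd
          exact dT _ c1d.symm cbd.symm h4
        left
        refine ⟨g⁻¹, ?_⟩
        have h6 : f' = piF 1 := by
          apply homA_ext
          · intro j hj
            have : j = 0 ∨ j = 1 ∨ j = 2 := by omega
            rw [piF_a hj]
            rcases this with rfl | rfl | rfl
            · rw [e0]; decide
            · rw [e1]; decide
            · rw [hu]; decide
          · rw [hv, piF_b]; decide
          · rw [hd, piF_d]
        intro x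
        rw [← h6, hf'def, cjH_apply]
        group
  · -- cycles of length four
    right
    apply Dep.of_cj g
    set f' := cjH g f with hf'def
    have e0 : f' (aA 0) = Cp := h0
    have e1 : f' (aA 1) = Tp := h1
    have c02 := com_of (f := f') (r.comm 0 2 (by omega) (by omega))
    have b12 := brd_of (f := f') (r.braid 1 (by omega))
    have cb0 := com_of (f := f') (r.bc 0 (by omega))
    have bb1 := brd_of (f := f') r.bb
    have c1d := com_of (f := f') (r.dcomm 1 (by omega) (by omega))
    have c2d := com_of (f := f') (r.dcomm 2 (by omega) (by omega))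
    rw [e0] at c02 cb0
    rw [e1] at b12 bb1 c1d
    have hu := uC _ c02.symm b12.symm
    have hv := uC _ cb0 bb1
    have hd : f' dA = 1 := by
      apply dC _ c1d.symm
      rcases hu with hu | hu
      · rw [hu] at c2d; exact Or.inl c2d.symm
      · rw [hu] at c2d; exact Or.inr c2d.symm
    apply dep_of_const
    intro c hc x hx i j
    rcases hu with hu | hu <;> rcases hv with hv | hv
    · exact lin_C0 hc e0 e1 hu hv hd hx i j
    · exact lin_C1 hc e0 e1 hu hv hd hx i j
    · exact lin_C2 hc e0 e1 hu hv hd hx i j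
    · exact lin_C3 hc e0 e1 hu hv hd hx i j
  · -- even permutations
    exfalso
    have c1d := com_of (f := f) (r.dcomm 1 (by omega) (by omega))
    have b12 := brd_of (f := f) (r.braid 1 (by omega))
    have bb1 := brd_of (f := f) r.bb
    have s1 : Equiv.Perm.sign (f (aA 1)) = 1 := cent3 _ _ h0 h1 rfl
    have sb : ∀ x y : S4, x * y * x = y * x * y → Equiv.Perm.sign x = Equiv.Perm.sign y := by
      intro x y h
      have h2 := congrArg Equiv.Perm.sign h
      simp only [map_mul] at h2
      have h3 : Equiv.Perm.sign x * Equiv.Perm.sign y * Equiv.Perm.sign x =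
        Equiv.Perm.sign x * Equiv.Perm.sign y * Equiv.Perm.sign y := by
        rw [h2, mul_comm (Equiv.Perm.sign y)]
      exact mul_left_cancel h3
    have := top_of hf (Equiv.Perm.sign : S4 →* ℤˣ).ker
      (by rw [MonoidHom.mem_ker, sb _ _ b01, s1]) (by rw [MonoidHom.mem_ker, s1])
      (by rw [MonoidHom.mem_ker, ← sb _ _ b12, s1]) (by rw [MonoidHom.mem_ker, sb _ _ bb1, s1])
      (by rw [MonoidHom.mem_ker]; exact cent3 _ _ h0 h1 c1d.symm) s01
    rw [MonoidHom.mem_ker] at this
    exact absurd this (by decide)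

/-- block B3b: the case `n = 4` -/
theorem x2_four (φ : MulAut (A 1)) : ∃ s : A 1, ∀ x, piA 1 (φ x) = piA 1 (s * x * s⁻¹) := by
  set f : A 1 →* S4 := (piF 1).comp φ.toMonoidHom with hfdef
  have hf : Function.Surjective f := piF_surj.comp φ.surjective
  rcases key f hf with ⟨g, hg⟩ | hD
  · exact x2_of_piF (φ := φ.toMonoidHom) hg
  · exfalso
    obtain ⟨α, β, h1, h2⟩ := hD _ _ (coc1 φ.toMonoidHom) (coc2 φ.toMonoidHom)
    have hφ : ∀ y : A 1, φ.toMonoidHom (φ.symm y) = y := fun y => φ.apply_symm_apply y
    have k1 := h2 (φ.symm dA) (by rw [hfdef, MonoidHom.comp_apply, hφ, piF_d]) 0 1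
    have k2 := h2 (φ.symm (aA 0 * aA 0)) (by
      rw [hfdef, MonoidHom.comp_apply, hφ, map_mul, piF_a (by omega)]
      decide) 0 2
    simp only [hφ] at k1 k2
    have v1 : c1H dA = c1d := liftA_d _
    have v2 : c2H dA = 1 := liftA_d _
    have v3 : c1H (aA 0) = c1g 0 := liftA_a _ (by omega)
    have v4 : c2H (aA 0) = c2g 0 := liftA_a _ (by omega)
    rw [v1, v2] at k1
    rw [map_mul, map_mul, v3, v4] at k2
    have w1 : c1d.v 0 = 1 := rfl
    have w2 : c1d.v 1 = 0 := rfl
    have w3 : (c1g 0 * c1g 0).v 0 = 0 := by decide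
    have w4 : (c1g 0 * c1g 0).v 2 = 0 := by decide
    have w5 : (c2g 0 * c2g 0).v 0 = 2 := by decide
    have w6 : (c2g 0 * c2g 0).v 2 = 0 := by decide
    rw [w1, w2, one_v, one_v] at k1
    rw [w3, w4, w5, w6] at k2
    omega

end Pool.Agent.Helper88.BN
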