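import Pool.Agent.Helper38.BN.PiF

/-!
# Project BN, block B3b: the case `n = 4`

Every automorphism of the Artin group of type `B̃_4` induces an inner automorphism of the symmetric
group of the four strands.
-/

namespace Pool.Agent.Helper88.BN

open Pool.Agent.Helper38.BN

/-- the symmetric group of the strands -/
abbrev S4 : Type := Equiv.Perm (Fin (1 + 3))

/-- the vectors -/
abbrev V4 : Type := Fin (1 + 3) → ℤ

/-! ### affine permutations -/

/-- the semidirect product of `V4` and `S4` -/
@[ext] structure Aff where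
  v : V4
  s : S4

instance : Mul Aff := ⟨fun x y => ⟨fun i => x.v i + y.v (x.s⁻¹ i), x.s * y.s⟩⟩
instance : One Aff := ⟨⟨fun _ => 0, 1⟩⟩
instance : Inv Aff := ⟨fun x => ⟨fun i => -x.v (x.s i), x.s⁻¹⟩⟩

@[simp] lemma mul_v (x y : Aff) (i : Fin (1 + 3)) : (x * y).v i = x.v i + y.v (x.s⁻¹ i) := rfl
@[simp] lemma mul_s (x y : Aff) : (x * y).s = x.s * y.s := rfl
@[simp] lemma one_v (i : Fin (1 + 3)) : (1 : Aff).v i = 0 := rfl
@[simp] lemma one_s : (1 : Aff).s = 1 := rfl
@[simp] lemma inv_v (x : Aff) (i : Fin (1 + 3)) : (x⁻¹).v i = -x.v (x.s i) := rfl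
@[simp] lemma inv_s (x : Aff) : (x⁻¹).s = x.s⁻¹ := rfl

instance : Group Aff where
  mul_assoc x y z := by
    ext i
    · simp [add_assoc]
    · simp
  one_mul x := by ext i <;> simp
  mul_one x := by ext i <;> simp
  inv_mul_cancel x := by ext i <;> simp

lemma aff_eq {x y : Aff} (h : (∀ i, x.v i = y.v i) ∧ (∀ i, x.s i = y.s i)) : x = y :=
  Aff.ext (funext h.1) (Equiv.ext h.2)

/-- the projection -/
def sH : Aff →* S4 where
  toFun x := x.s
  map_one' := rfl
  map_mul' _ _ := rfl

/-- the values of the first cocycle -/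
def c1g (j : ℕ) : Aff := ⟨fun _ => 0, swF 1 j⟩
/-- the value of the first cocycle at `d` -/
def c1d : Aff := ⟨fun i => if i = 0 then 1 else 0, 1⟩
/-- the values of the second cocycle -/
def c2g (j : ℕ) : Aff := ⟨fun i => if i.val = j ∨ i.val = j + 1 then 1 else 0, swF 1 j⟩

lemma c1_rel : RelA 1 c1g (c1g 2) c1d where
  comm i j h h' := by
    obtain ⟨rfl, rfl⟩ : i = 0 ∧ j = 2 := by omega
    exact aff_eq (by decide)
  braid i h := by
    have : i = 0 ∨ i = 1 := by omega
    rcases this with rfl | rfl <;> exact aff_eq (by decide)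
  dcomm i h h' := by
    have : i = 1 ∨ i = 2 := by omega
    rcases this with rfl | rfl <;> exact aff_eq (by decide)
  four h := aff_eq (by decide)
  ba := aff_eq (by decide)
  bb := aff_eq (by decide)
  bc i h := by
    obtain rfl : i = 0 := by omega
    exact aff_eq (by decide)
  bd := aff_eq (by decide)

lemma c2_rel : RelA 1 c2g (c2g 2) 1 where
  comm i j h h' := by
    obtain ⟨rfl, rfl⟩ : i = 0 ∧ j = 2 := by omega
    exact aff_eq (by decide)
  braid i h := by
    have : i = 0 ∨ i = 1 := by omega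
    rcases this with rfl | rfl <;> exact aff_eq (by decide)
  dcomm i h h' := by simp
  four h := by simp
  ba := aff_eq (by decide)
  bb := aff_eq (by decide)
  bc i h := by
    obtain rfl : i = 0 := by omega
    exact aff_eq (by decide)
  bd := by simp

/-- the first cocycle -/
def c1H : A 1 →* Aff := liftA c1_rel
/-- the second cocycle -/
def c2H : A 1 →* Aff := liftA c2_rel

lemma c1H_s (x : A 1) : (c1H x).s = piF 1 x := by
  have h : sH.comp c1H = piF 1 := by
    apply homA_ext
    · intro j hj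
      rw [MonoidHom.comp_apply, piF_a hj]
      unfold c1H
      rw [liftA_a _ hj]
      rfl
    · rw [MonoidHom.comp_apply, piF_b]
      unfold c1H
      rw [liftA_b]
      rfl
    · rw [MonoidHom.comp_apply, piF_d]
      unfold c1H
      rw [liftA_d]
      rfl
  exact DFunLike.congr_fun h x

lemma c2H_s (x : A 1) : (c2H x).s = piF 1 x := by
  have h : sH.comp c2H = piF 1 := by
    apply homA_ext
    · intro j hj
      rw [MonoidHom.comp_apply, piF_a hj]
      unfold c2H
      rw [liftA_a _ hj]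
      rfl
    · rw [MonoidHom.comp_apply, piF_b]
      unfold c2H
      rw [liftA_b]
      rfl
    · rw [MonoidHom.comp_apply, piF_d]
      unfold c2H
      rw [liftA_d]
      rfl
  exact DFunLike.congr_fun h x

/-! ### cocycles -/

/-- cocycles over `f` -/
def IsCoc (f : A 1 →* S4) (c : A 1 → V4) : Prop :=
  ∀ x y i, c (x * y) i = c x i + c y ((f x)⁻¹ i)

lemma coc1 (φ : A 1 →* A 1) : IsCoc ((piF 1).comp φ) (fun x => (c1H (φ x)).v) := by
  intro x y i
  simp only [map_mul, mul_v, c1H_s, MonoidHom.comp_apply]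

lemma coc2 (φ : A 1 →* A 1) : IsCoc ((piF 1).comp φ) (fun x => (c2H (φ x)).v) := by
  intro x y i
  simp only [map_mul, mul_v, c2H_s, MonoidHom.comp_apply]

/-- the cocycle plus the coboundary of `w` is constant at `x` -/
def Cst (f : A 1 →* S4) (c : A 1 → V4) (N : ℤ) (w : V4) (x : A 1) : Prop :=
  ∀ i j, N * c x i + w i - w ((f x)⁻¹ i) = N * c x j + w j - w ((f x)⁻¹ j)

section
variable {f : A 1 →* S4} {c c' : A 1 → V4} {N : ℤ} {w : V4}

lemma IsCoc.one (hc : IsCoc f c) (i : Fin (1 + 3)) : c 1 i = 0 := by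
  have h := hc 1 1 i
  simp at h
  exact h

lemma IsCoc.inv (hc : IsCoc f c) (x : A 1) (i : Fin (1 + 3)) : c x⁻¹ i = -c x (f x i) := by
  have h := hc x x⁻¹ (f x i)
  rw [mul_inv_cancel, hc.one] at h
  simp at h
  omega

lemma IsCoc.smul_add (hc : IsCoc f c) (hc' : IsCoc f c') (α β : ℤ) :
    IsCoc f (fun x i => α * c x i + β * c' x i) := by
  intro x y i
  simp only [hc x y i, hc' x y i]
  ring

lemma Cst.mul (hc : IsCoc f c) {x y : A 1} (hx : Cst f c N w x) (hy : Cst f c N w y) :
    Cst f c N w (x * y) := by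
  intro i j
  have h1 := hx i j
  have h2 := hy ((f x)⁻¹ i) ((f x)⁻¹ j)
  rw [hc, hc, map_mul, mul_inv_rev, Equiv.Perm.mul_apply, Equiv.Perm.mul_apply]
  linarith

lemma Cst.inv (hc : IsCoc f c) {x : A 1} (hx : Cst f c N w x) : Cst f c N w x⁻¹ := by
  intro i j
  have h1 := hx (f x i) (f x j)
  rw [hc.inv, hc.inv, map_inv, inv_inv]
  simp at h1
  linarith

lemma Cst.all (hc : IsCoc f c) (h0 : Cst f c N w (aA 0)) (h1 : Cst f c N w (aA 1))
    (h2 : Cst f c N w (aA 2)) (hb : Cst f c N w bA) (hd : Cst f c N w dA) (x : A 1) :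
    Cst f c N w x := by
  have hx : x ∈ Subgroup.closure ({bA, dA} ∪ aA '' {j | j < 1 + 2} : Set (A 1)) := by
    rw [closure_A]; trivial
  induction hx using Subgroup.closure_induction with
  | mem x hx =>
    simp only [Set.mem_union, Set.mem_insert_iff, Set.mem_singleton_iff, Set.mem_image] at hx
    rcases hx with (rfl | rfl) | ⟨j, hj, rfl⟩
    · exact hb
    · exact hd
    · have hj' : j < 1 + 2 := hj
      have : j = 0 ∨ j = 1 ∨ j = 2 := by omega
      rcases this with rfl | rfl | rfl
      · exact h0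
      · exact h1
      · exact h2
  | one =>
    intro i j
    rw [hc.one, hc.one, map_one]
    simp
  | mul x y _ _ hx hy => exact Cst.mul hc hx hy
  | inv x _ hx => exact Cst.inv hc hx

lemma const_ker (hc : IsCoc f c) (hN : N ≠ 0) (h0 : Cst f c N w (aA 0)) (h1 : Cst f c N w (aA 1))
    (h2 : Cst f c N w (aA 2)) (hb : Cst f c N w bA) (hd : Cst f c N w dA) {x : A 1}
    (hx : f x = 1) (i j : Fin (1 + 3)) : c x i = c x j := by
  have h := Cst.all hc h0 h1 h2 hb hd x i j
  rw [hx] at h
  simp at h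
  rcases h with h | h
  · exact h
  · exact absurd h hN

end

end Pool.Agent.Helper88.BN
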