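import Pool.Agent.Helper88.BN.FourT

/-!
# Project BN, block B3b: the case `n = 4`, linear algebra
-/

namespace Pool.Agent.Helper88.BN

open Pool.Agent.Helper38.BN

@[simp] lemma s01_i0 : (s01)⁻¹ (0 : Fin (1 + 3)) = 1 := rfl
@[simp] lemma s01_i1 : (s01)⁻¹ (1 : Fin (1 + 3)) = 0 := rfl
@[simp] lemma s01_i2 : (s01)⁻¹ (2 : Fin (1 + 3)) = 2 := rfl
@[simp] lemma s01_i3 : (s01)⁻¹ (3 : Fin (1 + 3)) = 3 := rfl
@[simp] lemma s12_i0 : (s12)⁻¹ (0 : Fin (1 + 3)) = 0 := rfl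
@[simp] lemma s12_i1 : (s12)⁻¹ (1 : Fin (1 + 3)) = 2 := rfl
@[simp] lemma s12_i2 : (s12)⁻¹ (2 : Fin (1 + 3)) = 1 := rfl
@[simp] lemma s12_i3 : (s12)⁻¹ (3 : Fin (1 + 3)) = 3 := rfl
@[simp] lemma s23_i0 : (s23)⁻¹ (0 : Fin (1 + 3)) = 0 := rfl
@[simp] lemma s23_i1 : (s23)⁻¹ (1 : Fin (1 + 3)) = 1 := rfl
@[simp] lemma s23_i2 : (s23)⁻¹ (2 : Fin (1 + 3)) = 3 := rfl
@[simp] lemma s23_i3 : (s23)⁻¹ (3 : Fin (1 + 3)) = 2 := rfl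
@[simp] lemma Cp_i0 : (Cp)⁻¹ (0 : Fin (1 + 3)) = 3 := rfl
@[simp] lemma Cp_i1 : (Cp)⁻¹ (1 : Fin (1 + 3)) = 0 := rfl
@[simp] lemma Cp_i2 : (Cp)⁻¹ (2 : Fin (1 + 3)) = 1 := rfl
@[simp] lemma Cp_i3 : (Cp)⁻¹ (3 : Fin (1 + 3)) = 2 := rfl
@[simp] lemma Cq_i0 : (Cq)⁻¹ (0 : Fin (1 + 3)) = 1 := rfl
@[simp] lemma Cq_i1 : (Cq)⁻¹ (1 : Fin (1 + 3)) = 2 := rfl
@[simp] lemma Cq_i2 : (Cq)⁻¹ (2 : Fin (1 + 3)) = 3 := rfl
@[simp] lemma Cq_i3 : (Cq)⁻¹ (3 : Fin (1 + 3)) = 0 := rfl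
@[simp] lemma Tp_i0 : (Tp)⁻¹ (0 : Fin (1 + 3)) = 2 := rfl
@[simp] lemma Tp_i1 : (Tp)⁻¹ (1 : Fin (1 + 3)) = 0 := rfl
@[simp] lemma Tp_i2 : (Tp)⁻¹ (2 : Fin (1 + 3)) = 3 := rfl
@[simp] lemma Tp_i3 : (Tp)⁻¹ (3 : Fin (1 + 3)) = 1 := rfl

section
variable {f : A 1 →* S4} {c : A 1 → V4}

lemma IsCoc.comm (hc : IsCoc f c) {x y : A 1} (h : x * y = y * x) (i : Fin (1 + 3)) :
    c x i + c y ((f x)⁻¹ i) = c y i + c x ((f y)⁻¹ i) := by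
  rw [← hc, ← hc, h]

lemma IsCoc.braid (hc : IsCoc f c) {x y : A 1} (h : x * y * x = y * x * y) (i : Fin (1 + 3)) :
    c x i + c y ((f x)⁻¹ i) + c x ((f y)⁻¹ ((f x)⁻¹ i)) =
      c y i + c x ((f y)⁻¹ i) + c y ((f x)⁻¹ ((f y)⁻¹ i)) := by
  have h1 : c (x * y * x) i = c (y * x * y) i := by rw [h]
  rw [hc, hc, hc, hc, map_mul, map_mul, mul_inv_rev, mul_inv_rev, Equiv.Perm.mul_apply,
    Equiv.Perm.mul_apply] at h1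
  exact h1

lemma fin_all {p : Fin (1 + 3) → Prop} (h0 : p 0) (h1 : p 1) (h2 : p 2) (h3 : p 3) (i) : p i := by
  fin_cases i
  · exact h0
  · exact h1
  · exact h2
  · exact h3

lemma cst_of {N : ℤ} {w : V4} {x : A 1} (h : ∀ i, N * c x i + w i - w ((f x)⁻¹ i) =
    N * c x 0 + w 0 - w ((f x)⁻¹ 0)) : Cst f c N w x := by
  intro i j
  rw [h i, h j]

/-- the linear forms on the relations -/
structure Rl (f : A 1 →* S4) (c : A 1 → V4) : Prop where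
  r02 : ∀ i, c (aA 0) i + c (aA 2) ((f (aA 0))⁻¹ i) = c (aA 2) i + c (aA 0) ((f (aA 2))⁻¹ i)
  r0b : ∀ i, c bA i + c (aA 0) ((f bA)⁻¹ i) = c (aA 0) i + c bA ((f (aA 0))⁻¹ i)
  r2b : ∀ i, c bA i + c (aA 2) ((f bA)⁻¹ i) = c (aA 2) i + c bA ((f (aA 2))⁻¹ i)
  r1d : ∀ i, c (aA 1) i + c dA ((f (aA 1))⁻¹ i) = c dA i + c (aA 1) ((f dA)⁻¹ i)
  r2d : ∀ i, c (aA 2) i + c dA ((f (aA 2))⁻¹ i) = c dA i + c (aA 2) ((f dA)⁻¹ i)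
  rbd : ∀ i, c bA i + c dA ((f bA)⁻¹ i) = c dA i + c bA ((f dA)⁻¹ i)
  r01 : ∀ i, c (aA 0) i + c (aA 1) ((f (aA 0))⁻¹ i) + c (aA 0) ((f (aA 1))⁻¹ ((f (aA 0))⁻¹ i)) =
      c (aA 1) i + c (aA 0) ((f (aA 1))⁻¹ i) + c (aA 1) ((f (aA 0))⁻¹ ((f (aA 1))⁻¹ i))
  r12 : ∀ i, c (aA 1) i + c (aA 2) ((f (aA 1))⁻¹ i) + c (aA 1) ((f (aA 2))⁻¹ ((f (aA 1))⁻¹ i)) =
      c (aA 2) i + c (aA 1) ((f (aA 2))⁻¹ i) + c (aA 2) ((f (aA 1))⁻¹ ((f (aA 2))⁻¹ i))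
  rb1 : ∀ i, c bA i + c (aA 1) ((f bA)⁻¹ i) + c bA ((f (aA 1))⁻¹ ((f bA)⁻¹ i)) =
      c (aA 1) i + c bA ((f (aA 1))⁻¹ i) + c (aA 1) ((f bA)⁻¹ ((f (aA 1))⁻¹ i))

lemma IsCoc.rl (hc : IsCoc f c) : Rl f c where
  r02 := hc.comm ((relA 1).comm 0 2 (by omega) (by omega))
  r0b := hc.comm ((relA 1).bc 0 (by omega))
  r2b := hc.comm (relA 1).ba
  r1d := hc.comm ((relA 1).dcomm 1 (by omega) (by omega))
  r2d := hc.comm ((relA 1).dcomm 2 (by omega) (by omega))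
  rbd := hc.comm (relA 1).bd
  r01 := hc.braid ((relA 1).braid 0 (by omega))
  r12 := hc.braid ((relA 1).braid 1 (by omega))
  rb1 := hc.braid (relA 1).bb

/-- the linear algebra of the case `lin_TI` -/
lemma lin_TI (hc : IsCoc f c) (h0 : f (aA 0) = s01) (h1 : f (aA 1) = s12) (h2 : f (aA 2) = s01)
    (hb : f bA = s23) (hd : f dA = 1)
    (hδ : c (aA 0) 0 + c (aA 0) 1 = c (aA 0) 2 + c (aA 0) 3)
    {x : A 1} (hx : f x = 1) (i j : Fin (1 + 3)) : c x i = c x j := by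
  obtain ⟨r02, r0b, r2b, r1d, r2d, rbd, r01, r12, rb1⟩ := hc.rl
  simp only [h0, h1, h2, hb, hd, inv_one, Equiv.Perm.one_apply] at r02 r0b r2b r1d r2d rbd r01 r12 rb1
  have r02_0 := r02 0
  have r02_1 := r02 1
  have r02_2 := r02 2
  have r02_3 := r02 3
  have r0b_0 := r0b 0
  have r0b_1 := r0b 1
  have r0b_2 := r0b 2
  have r0b_3 := r0b 3
  have r2b_0 := r2b 0
  have r2b_1 := r2b 1
  have r2b_2 := r2b 2
  have r2b_3 := r2b 3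
  have r1d_0 := r1d 0
  have r1d_1 := r1d 1
  have r1d_2 := r1d 2
  have r1d_3 := r1d 3
  have r2d_0 := r2d 0
  have r2d_1 := r2d 1
  have r2d_2 := r2d 2
  have r2d_3 := r2d 3
  have rbd_0 := rbd 0
  have rbd_1 := rbd 1
  have rbd_2 := rbd 2
  have rbd_3 := rbd 3
  have r01_0 := r01 0
  have r01_1 := r01 1
  have r01_2 := r01 2
  have r01_3 := r01 3
  have r12_0 := r12 0
  have r12_1 := r12 1
  have r12_2 := r12 2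
  have r12_3 := r12 3
  have rb1_0 := rb1 0
  have rb1_1 := rb1 1
  have rb1_2 := rb1 2
  have rb1_3 := rb1 3
  simp only [s01_i0, s01_i1, s01_i2, s01_i3, s12_i0, s12_i1, s12_i2, s12_i3, s23_i0, s23_i1, s23_i2, s23_i3] at r02_0 r02_1 r02_2 r02_3 r0b_0 r0b_1 r0b_2 r0b_3 r2b_0 r2b_1 r2b_2 r2b_3 r1d_0 r1d_1 r1d_2 r1d_3 r2d_0 r2d_1 r2d_2 r2d_3 rbd_0 rbd_1 rbd_2 rbd_3 r01_0 r01_1 r01_2 r01_3 r12_0 r12_1 r12_2 r12_3 rb1_0 rb1_1 rb1_2 rb1_3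
  clear r02 r0b r2b r1d r2d rbd r01 r12 rb1
  refine const_ker (N := 2) (w := ![(c bA 3 - c bA 2) + (c (aA 1) 2 - c (aA 1) 1) + (c (aA 0) 1 - c (aA 0) 0),
      (c bA 3 - c bA 2) + (c (aA 1) 2 - c (aA 1) 1),
      (c bA 3 - c bA 2), 0]) hc (by norm_num) ?_ ?_ ?_ ?_ ?_ hx i j
  all_goals
    refine cst_of (fin_all ?_ ?_ ?_ ?_) <;>
    (first | rw [h0] | rw [h1] | rw [h2] | rw [hb] | rw [hd]) <;>
    simp <;> omega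

/-- the linear algebra of the case `lin_TJ` -/
lemma lin_TJ (hc : IsCoc f c) (h0 : f (aA 0) = s01) (h1 : f (aA 1) = s12) (h2 : f (aA 2) = s23)
    (hb : f bA = s01) (hd : f dA = 1)
    (hδ : c (aA 0) 0 + c (aA 0) 1 = c (aA 0) 2 + c (aA 0) 3)
    {x : A 1} (hx : f x = 1) (i j : Fin (1 + 3)) : c x i = c x j := by
  obtain ⟨r02, r0b, r2b, r1d, r2d, rbd, r01, r12, rb1⟩ := hc.rl
  simp only [h0, h1, h2, hb, hd, inv_one, Equiv.Perm.one_apply] at r02 r0b r2b r1d r2d rbd r01 r12 rb1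
  have r02_0 := r02 0
  have r02_1 := r02 1
  have r02_2 := r02 2
  have r02_3 := r02 3
  have r0b_0 := r0b 0
  have r0b_1 := r0b 1
  have r0b_2 := r0b 2
  have r0b_3 := r0b 3
  have r2b_0 := r2b 0
  have r2b_1 := r2b 1
  have r2b_2 := r2b 2
  have r2b_3 := r2b 3
  have r1d_0 := r1d 0
  have r1d_1 := r1d 1
  have r1d_2 := r1d 2
  have r1d_3 := r1d 3
  have r2d_0 := r2d 0
  have r2d_1 := r2d 1
  have r2d_2 := r2d 2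
  have r2d_3 := r2d 3
  have rbd_0 := rbd 0
  have rbd_1 := rbd 1
  have rbd_2 := rbd 2
  have rbd_3 := rbd 3
  have r01_0 := r01 0
  have r01_1 := r01 1
  have r01_2 := r01 2
  have r01_3 := r01 3
  have r12_0 := r12 0
  have r12_1 := r12 1
  have r12_2 := r12 2
  have r12_3 := r12 3
  have rb1_0 := rb1 0
  have rb1_1 := rb1 1
  have rb1_2 := rb1 2
  have rb1_3 := rb1 3
  simp only [s01_i0, s01_i1, s01_i2, s01_i3, s12_i0, s12_i1, s12_i2, s12_i3, s23_i0, s23_i1, s23_i2, s23_i3] at r02_0 r02_1 r02_2 r02_3 r0b_0 r0b_1 r0b_2 r0b_3 r2b_0 r2b_1 r2b_2 r2b_3 r1d_0 r1d_1 r1d_2 r1d_3 r2d_0 r2d_1 r2d_2 r2d_3 rbd_0 rbd_1 rbd_2 rbd_3 r01_0 r01_1 r01_2 r01_3 r12_0 r12_1 r12_2 r12_3 rb1_0 rb1_1 rb1_2 rb1_3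
  clear r02 r0b r2b r1d r2d rbd r01 r12 rb1
  refine const_ker (N := 2) (w := ![(c (aA 2) 3 - c (aA 2) 2) + (c (aA 1) 2 - c (aA 1) 1) + (c (aA 0) 1 - c (aA 0) 0),
      (c (aA 2) 3 - c (aA 2) 2) + (c (aA 1) 2 - c (aA 1) 1),
      (c (aA 2) 3 - c (aA 2) 2), 0]) hc (by norm_num) ?_ ?_ ?_ ?_ ?_ hx i j
  all_goals
    refine cst_of (fin_all ?_ ?_ ?_ ?_) <;>
    (first | rw [h0] | rw [h1] | rw [h2] | rw [hb] | rw [hd]) <;>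
    simp <;> omega

/-- the linear algebra of the case `lin_C0` -/
lemma lin_C0 (hc : IsCoc f c) (h0 : f (aA 0) = Cp) (h1 : f (aA 1) = Tp) (h2 : f (aA 2) = Cp)
    (hb : f bA = Cp) (hd : f dA = 1)
    {x : A 1} (hx : f x = 1) (i j : Fin (1 + 3)) : c x i = c x j := by
  obtain ⟨r02, r0b, r2b, r1d, r2d, rbd, r01, r12, rb1⟩ := hc.rl
  simp only [h0, h1, h2, hb, hd, inv_one, Equiv.Perm.one_apply] at r02 r0b r2b r1d r2d rbd r01 r12 rb1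
  have r02_0 := r02 0
  have r02_1 := r02 1
  have r02_2 := r02 2
  have r02_3 := r02 3
  have r0b_0 := r0b 0
  have r0b_1 := r0b 1
  have r0b_2 := r0b 2
  have r0b_3 := r0b 3
  have r2b_0 := r2b 0
  have r2b_1 := r2b 1
  have r2b_2 := r2b 2
  have r2b_3 := r2b 3
  have r1d_0 := r1d 0
  have r1d_1 := r1d 1
  have r1d_2 := r1d 2
  have r1d_3 := r1d 3
  have r2d_0 := r2d 0
  have r2d_1 := r2d 1
  have r2d_2 := r2d 2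
  have r2d_3 := r2d 3
  have rbd_0 := rbd 0
  have rbd_1 := rbd 1
  have rbd_2 := rbd 2
  have rbd_3 := rbd 3
  have r01_0 := r01 0
  have r01_1 := r01 1
  have r01_2 := r01 2
  have r01_3 := r01 3
  have r12_0 := r12 0
  have r12_1 := r12 1
  have r12_2 := r12 2
  have r12_3 := r12 3
  have rb1_0 := rb1 0
  have rb1_1 := rb1 1
  have rb1_2 := rb1 2
  have rb1_3 := rb1 3
  simp only [Cp_i0, Cp_i1, Cp_i2, Cp_i3, Tp_i0, Tp_i1, Tp_i2, Tp_i3] at r02_0 r02_1 r02_2 r02_3 r0b_0 r0b_1 r0b_2 r0b_3 r2b_0 r2b_1 r2b_2 r2b_3 r1d_0 r1d_1 r1d_2 r1d_3 r2d_0 r2d_1 r2d_2 r2d_3 rbd_0 rbd_1 rbd_2 rbd_3 r01_0 r01_1 r01_2 r01_3 r12_0 r12_1 r12_2 r12_3 rb1_0 rb1_1 rb1_2 rb1_3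
  clear r02 r0b r2b r1d r2d rbd r01 r12 rb1
  refine const_ker (N := 4) (w := ![0, (c (aA 0) 0 + c (aA 0) 1 + c (aA 0) 2 + c (aA 0) 3) - 4 * c (aA 0) 1,
      (c (aA 0) 0 + c (aA 0) 1 + c (aA 0) 2 + c (aA 0) 3) - 4 * c (aA 0) 1 + ((c (aA 0) 0 + c (aA 0) 1 + c (aA 0) 2 + c (aA 0) 3) - 4 * c (aA 0) 2),
      (c (aA 0) 0 + c (aA 0) 1 + c (aA 0) 2 + c (aA 0) 3) - 4 * c (aA 0) 1 + ((c (aA 0) 0 + c (aA 0) 1 + c (aA 0) 2 + c (aA 0) 3) - 4 * c (aA 0) 2) + ((c (aA 0) 0 + c (aA 0) 1 + c (aA 0) 2 + c (aA 0) 3) - 4 * c (aA 0) 3)]) hc (by norm_num) ?_ ?_ ?_ ?_ ?_ hx i j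
  all_goals
    refine cst_of (fin_all ?_ ?_ ?_ ?_) <;>
    (first | rw [h0] | rw [h1] | rw [h2] | rw [hb] | rw [hd]) <;>
    simp <;> omega

/-- the linear algebra of the case `lin_C1` -/
lemma lin_C1 (hc : IsCoc f c) (h0 : f (aA 0) = Cp) (h1 : f (aA 1) = Tp) (h2 : f (aA 2) = Cp)
    (hb : f bA = Cq) (hd : f dA = 1)
    {x : A 1} (hx : f x = 1) (i j : Fin (1 + 3)) : c x i = c x j := by
  obtain ⟨r02, r0b, r2b, r1d, r2d, rbd, r01, r12, rb1⟩ := hc.rl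
  simp only [h0, h1, h2, hb, hd, inv_one, Equiv.Perm.one_apply] at r02 r0b r2b r1d r2d rbd r01 r12 rb1
  have r02_0 := r02 0
  have r02_1 := r02 1
  have r02_2 := r02 2
  have r02_3 := r02 3
  have r0b_0 := r0b 0
  have r0b_1 := r0b 1
  have r0b_2 := r0b 2
  have r0b_3 := r0b 3
  have r2b_0 := r2b 0
  have r2b_1 := r2b 1
  have r2b_2 := r2b 2
  have r2b_3 := r2b 3
  have r1d_0 := r1d 0
  have r1d_1 := r1d 1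
  have r1d_2 := r1d 2
  have r1d_3 := r1d 3
  have r2d_0 := r2d 0
  have r2d_1 := r2d 1
  have r2d_2 := r2d 2
  have r2d_3 := r2d 3
  have rbd_0 := rbd 0
  have rbd_1 := rbd 1
  have rbd_2 := rbd 2
  have rbd_3 := rbd 3
  have r01_0 := r01 0
  have r01_1 := r01 1
  have r01_2 := r01 2
  have r01_3 := r01 3
  have r12_0 := r12 0
  have r12_1 := r12 1
  have r12_2 := r12 2
  have r12_3 := r12 3
  have rb1_0 := rb1 0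
  have rb1_1 := rb1 1
  have rb1_2 := rb1 2
  have rb1_3 := rb1 3
  simp only [Cp_i0, Cp_i1, Cp_i2, Cp_i3, Cq_i0, Cq_i1, Cq_i2, Cq_i3, Tp_i0, Tp_i1, Tp_i2, Tp_i3] at r02_0 r02_1 r02_2 r02_3 r0b_0 r0b_1 r0b_2 r0b_3 r2b_0 r2b_1 r2b_2 r2b_3 r1d_0 r1d_1 r1d_2 r1d_3 r2d_0 r2d_1 r2d_2 r2d_3 rbd_0 rbd_1 rbd_2 rbd_3 r01_0 r01_1 r01_2 r01_3 r12_0 r12_1 r12_2 r12_3 rb1_0 rb1_1 rb1_2 rb1_3
  clear r02 r0b r2b r1d r2d rbd r01 r12 rb1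
  refine const_ker (N := 4) (w := ![0, (c (aA 0) 0 + c (aA 0) 1 + c (aA 0) 2 + c (aA 0) 3) - 4 * c (aA 0) 1,
      (c (aA 0) 0 + c (aA 0) 1 + c (aA 0) 2 + c (aA 0) 3) - 4 * c (aA 0) 1 + ((c (aA 0) 0 + c (aA 0) 1 + c (aA 0) 2 + c (aA 0) 3) - 4 * c (aA 0) 2),
      (c (aA 0) 0 + c (aA 0) 1 + c (aA 0) 2 + c (aA 0) 3) - 4 * c (aA 0) 1 + ((c (aA 0) 0 + c (aA 0) 1 + c (aA 0) 2 + c (aA 0) 3) - 4 * c (aA 0) 2) + ((c (aA 0) 0 + c (aA 0) 1 + c (aA 0) 2 + c (aA 0) 3) - 4 * c (aA 0) 3)]) hc (by norm_num) ?_ ?_ ?_ ?_ ?_ hx i j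
  all_goals
    refine cst_of (fin_all ?_ ?_ ?_ ?_) <;>
    (first | rw [h0] | rw [h1] | rw [h2] | rw [hb] | rw [hd]) <;>
    simp <;> omega

/-- the linear algebra of the case `lin_C2` -/
lemma lin_C2 (hc : IsCoc f c) (h0 : f (aA 0) = Cp) (h1 : f (aA 1) = Tp) (h2 : f (aA 2) = Cq)
    (hb : f bA = Cp) (hd : f dA = 1)
    {x : A 1} (hx : f x = 1) (i j : Fin (1 + 3)) : c x i = c x j := by
  obtain ⟨r02, r0b, r2b, r1d, r2d, rbd, r01, r12, rb1⟩ := hc.rl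
  simp only [h0, h1, h2, hb, hd, inv_one, Equiv.Perm.one_apply] at r02 r0b r2b r1d r2d rbd r01 r12 rb1
  have r02_0 := r02 0
  have r02_1 := r02 1
  have r02_2 := r02 2
  have r02_3 := r02 3
  have r0b_0 := r0b 0
  have r0b_1 := r0b 1
  have r0b_2 := r0b 2
  have r0b_3 := r0b 3
  have r2b_0 := r2b 0
  have r2b_1 := r2b 1
  have r2b_2 := r2b 2
  have r2b_3 := r2b 3
  have r1d_0 := r1d 0
  have r1d_1 := r1d 1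
  have r1d_2 := r1d 2
  have r1d_3 := r1d 3
  have r2d_0 := r2d 0
  have r2d_1 := r2d 1
  have r2d_2 := r2d 2
  have r2d_3 := r2d 3
  have rbd_0 := rbd 0
  have rbd_1 := rbd 1
  have rbd_2 := rbd 2
  have rbd_3 := rbd 3
  have r01_0 := r01 0
  have r01_1 := r01 1
  have r01_2 := r01 2
  have r01_3 := r01 3
  have r12_0 := r12 0
  have r12_1 := r12 1
  have r12_2 := r12 2
  have r12_3 := r12 3
  have rb1_0 := rb1 0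
  have rb1_1 := rb1 1
  have rb1_2 := rb1 2
  have rb1_3 := rb1 3
  simp only [Cp_i0, Cp_i1, Cp_i2, Cp_i3, Cq_i0, Cq_i1, Cq_i2, Cq_i3, Tp_i0, Tp_i1, Tp_i2, Tp_i3] at r02_0 r02_1 r02_2 r02_3 r0b_0 r0b_1 r0b_2 r0b_3 r2b_0 r2b_1 r2b_2 r2b_3 r1d_0 r1d_1 r1d_2 r1d_3 r2d_0 r2d_1 r2d_2 r2d_3 rbd_0 rbd_1 rbd_2 rbd_3 r01_0 r01_1 r01_2 r01_3 r12_0 r12_1 r12_2 r12_3 rb1_0 rb1_1 rb1_2 rb1_3
  clear r02 r0b r2b r1d r2d rbd r01 r12 rb1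
  refine const_ker (N := 4) (w := ![0, (c (aA 0) 0 + c (aA 0) 1 + c (aA 0) 2 + c (aA 0) 3) - 4 * c (aA 0) 1,
      (c (aA 0) 0 + c (aA 0) 1 + c (aA 0) 2 + c (aA 0) 3) - 4 * c (aA 0) 1 + ((c (aA 0) 0 + c (aA 0) 1 + c (aA 0) 2 + c (aA 0) 3) - 4 * c (aA 0) 2),
      (c (aA 0) 0 + c (aA 0) 1 + c (aA 0) 2 + c (aA 0) 3) - 4 * c (aA 0) 1 + ((c (aA 0) 0 + c (aA 0) 1 + c (aA 0) 2 + c (aA 0) 3) - 4 * c (aA 0) 2) + ((c (aA 0) 0 + c (aA 0) 1 + c (aA 0) 2 + c (aA 0) 3) - 4 * c (aA 0) 3)]) hc (by norm_num) ?_ ?_ ?_ ?_ ?_ hx i j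
  all_goals
    refine cst_of (fin_all ?_ ?_ ?_ ?_) <;>
    (first | rw [h0] | rw [h1] | rw [h2] | rw [hb] | rw [hd]) <;>
    simp <;> omega

/-- the linear algebra of the case `lin_C3` -/
lemma lin_C3 (hc : IsCoc f c) (h0 : f (aA 0) = Cp) (h1 : f (aA 1) = Tp) (h2 : f (aA 2) = Cq)
    (hb : f bA = Cq) (hd : f dA = 1)
    {x : A 1} (hx : f x = 1) (i j : Fin (1 + 3)) : c x i = c x j := by
  obtain ⟨r02, r0b, r2b, r1d, r2d, rbd, r01, r12, rb1⟩ := hc.rl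
  simp only [h0, h1, h2, hb, hd, inv_one, Equiv.Perm.one_apply] at r02 r0b r2b r1d r2d rbd r01 r12 rb1
  have r02_0 := r02 0
  have r02_1 := r02 1
  have r02_2 := r02 2
  have r02_3 := r02 3
  have r0b_0 := r0b 0
  have r0b_1 := r0b 1
  have r0b_2 := r0b 2
  have r0b_3 := r0b 3
  have r2b_0 := r2b 0
  have r2b_1 := r2b 1
  have r2b_2 := r2b 2
  have r2b_3 := r2b 3
  have r1d_0 := r1d 0
  have r1d_1 := r1d 1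
  have r1d_2 := r1d 2
  have r1d_3 := r1d 3
  have r2d_0 := r2d 0
  have r2d_1 := r2d 1
  have r2d_2 := r2d 2
  have r2d_3 := r2d 3
  have rbd_0 := rbd 0
  have rbd_1 := rbd 1
  have rbd_2 := rbd 2
  have rbd_3 := rbd 3
  have r01_0 := r01 0
  have r01_1 := r01 1
  have r01_2 := r01 2
  have r01_3 := r01 3
  have r12_0 := r12 0
  have r12_1 := r12 1
  have r12_2 := r12 2
  have r12_3 := r12 3
  have rb1_0 := rb1 0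
  have rb1_1 := rb1 1
  have rb1_2 := rb1 2
  have rb1_3 := rb1 3
  simp only [Cp_i0, Cp_i1, Cp_i2, Cp_i3, Cq_i0, Cq_i1, Cq_i2, Cq_i3, Tp_i0, Tp_i1, Tp_i2, Tp_i3] at r02_0 r02_1 r02_2 r02_3 r0b_0 r0b_1 r0b_2 r0b_3 r2b_0 r2b_1 r2b_2 r2b_3 r1d_0 r1d_1 r1d_2 r1d_3 r2d_0 r2d_1 r2d_2 r2d_3 rbd_0 rbd_1 rbd_2 rbd_3 r01_0 r01_1 r01_2 r01_3 r12_0 r12_1 r12_2 r12_3 rb1_0 rb1_1 rb1_2 rb1_3
  clear r02 r0b r2b r1d r2d rbd r01 r12 rb1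
  refine const_ker (N := 4) (w := ![0, (c (aA 0) 0 + c (aA 0) 1 + c (aA 0) 2 + c (aA 0) 3) - 4 * c (aA 0) 1,
      (c (aA 0) 0 + c (aA 0) 1 + c (aA 0) 2 + c (aA 0) 3) - 4 * c (aA 0) 1 + ((c (aA 0) 0 + c (aA 0) 1 + c (aA 0) 2 + c (aA 0) 3) - 4 * c (aA 0) 2),
      (c (aA 0) 0 + c (aA 0) 1 + c (aA 0) 2 + c (aA 0) 3) - 4 * c (aA 0) 1 + ((c (aA 0) 0 + c (aA 0) 1 + c (aA 0) 2 + c (aA 0) 3) - 4 * c (aA 0) 2) + ((c (aA 0) 0 + c (aA 0) 1 + c (aA 0) 2 + c (aA 0) 3) - 4 * c (aA 0) 3)]) hc (by norm_num) ?_ ?_ ?_ ?_ ?_ hx i j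
  all_goals
    refine cst_of (fin_all ?_ ?_ ?_ ?_) <;>
    (first | rw [h0] | rw [h1] | rw [h2] | rw [hb] | rw [hd]) <;>
    simp <;> omega

end

end Pool.Agent.Helper88.BN
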