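import Pool.Agent.Helper88.BN.Four

/-!
# Project BN, block B3b: the case `n = 4`, the finite checks in the symmetric group
-/

namespace Pool.Agent.Helper88.BN

open Pool.Agent.Helper38.BN

/-- a transposition -/
def s01 : S4 := ⟨![1, 0, 2, 3], ![1, 0, 2, 3], by decide, by decide⟩
/-- a transposition -/
def s12 : S4 := ⟨![0, 2, 1, 3], ![0, 2, 1, 3], by decide, by decide⟩
/-- a transposition -/
def s23 : S4 := ⟨![0, 1, 3, 2], ![0, 1, 3, 2], by decide, by decide⟩
/-- a cycle of length four -/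
def Cp : S4 := ⟨![1, 2, 3, 0], ![3, 0, 1, 2], by decide, by decide⟩
/-- the inverse cycle -/
def Cq : S4 := ⟨![3, 0, 1, 2], ![1, 2, 3, 0], by decide, by decide⟩
/-- a cycle of length four -/
def Tp : S4 := ⟨![1, 3, 0, 2], ![2, 0, 3, 1], by decide, by decide⟩

/-- the possible pairs -/
def prB (s t : S4) : Bool :=
  (decide (s = t)) || !(decide (s * t * s = t * s * t)) || (decide (t * t * t = 1 ∧ t ≠ 1)) ||
    (decide (∃ g : S4, (g * s * g⁻¹ = s01 ∧ g * t * g⁻¹ = s12) ∨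
      (g * s * g⁻¹ = Cp ∧ g * t * g⁻¹ = Tp)))

private lemma prB_all : ∀ s t : S4, prB s t = true := by decide +kernel

lemma pairs (s t : S4) (h : s ≠ t) (h1 : s * t * s = t * s * t) :
    (∃ g : S4, g * s * g⁻¹ = s01 ∧ g * t * g⁻¹ = s12) ∨
    (∃ g : S4, g * s * g⁻¹ = Cp ∧ g * t * g⁻¹ = Tp) ∨ (t * t * t = 1 ∧ t ≠ 1) := by
  have h2 := prB_all s t
  unfold prB at h2
  simp only [Bool.or_eq_true, decide_eq_true_eq, Bool.not_eq_true', decide_eq_false_iff_not] at h2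
  rcases h2 with ((h2 | h2) | h2) | ⟨g, h2 | h2⟩
  · exact absurd h2 h
  · exact absurd h1 h2
  · exact Or.inr (Or.inr h2)
  · exact Or.inl ⟨g, h2⟩
  · exact Or.inr (Or.inl ⟨g, h2⟩)

lemma cent3 : ∀ t d : S4, t * t * t = 1 → t ≠ 1 → d * t = t * d → Equiv.Perm.sign d = 1 := by
  decide +kernel

lemma uT : ∀ u : S4, u * s01 = s01 * u → u * s12 * u = s12 * u * s12 → u = s01 ∨ u = s23 := by
  decide +kernel

lemma uC : ∀ u : S4, u * Cp = Cp * u → u * Tp * u = Tp * u * Tp → u = Cp ∨ u = Cq := by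
  decide +kernel

lemma dT : ∀ d : S4, d * s12 = s12 * d → d * s23 = s23 * d →
    d * s01 * d * s01 = s01 * d * s01 * d → d = 1 := by
  decide +kernel

lemma dT' : ∀ d : S4, d * s12 = s12 * d → d * s01 = s01 * d → d = 1 := by
  decide +kernel

lemma dC : ∀ d : S4, d * Tp = Tp * d → (d * Cp = Cp * d ∨ d * Cq = Cq * d) → d = 1 := by
  decide +kernel

end Pool.Agent.Helper88.BN
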